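import Pool.Agent.Work.MP_4dcfa0_45.Conic

/-!
Integer points of `x^4 + y^4 - w^2 = q^4 (a^4 + b^4)` on the tangent line of `x^4 + y^4 = q^4 (a^4 + b^4)`
at `(q a, q b)`.
-/

set_option autoImplicit false

namespace Pool.Agent.Work.MP_4dcfa0_tan

/-- the tangent line -/
theorem tangent (a b q T V : ℤ) (h : V ^ 2 = (a ^ 12 + b ^ 12) * T ^ 2 +
    2 * (2 * a * b * (b ^ 8 - a ^ 8)) * (q * T) + 6 * a ^ 2 * b ^ 2 * (a ^ 4 + b ^ 4) * q ^ 2) :
    (q * a + b ^ 3 * T) ^ 4 + (q * b - a ^ 3 * T) ^ 4 - (T * V) ^ 2 = q ^ 4 * (a ^ 4 + b ^ 4) := by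
  linear_combination (-T ^ 2) * h

theorem A_pos {a b : ℤ} (ha : a ≠ 0) : 0 < a ^ 12 + b ^ 12 := by
  have h1 : 0 < a ^ 12 := by
    have := pow_pos (sq_pos_of_ne_zero ha) 6
    have h2 : (a ^ 2) ^ 6 = a ^ 12 := by ring
    rwa [h2] at this
  have h3 : 0 ≤ b ^ 12 := by
    have := pow_nonneg (sq_nonneg b) 6
    have h2 : (b ^ 2) ^ 6 = b ^ 12 := by ring
    rwa [h2] at this
  linarith

theorem A_nonsq {a b : ℤ} (ha : a ≠ 0) (hb : b ≠ 0) : ¬ IsSquare (4 * (a ^ 12 + b ^ 12)) := by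
  rintro ⟨r, hr⟩
  have h1 : (2 : ℤ) ∣ r := by
    have h2 : (2 : ℤ) ∣ r * r := ⟨2 * (a ^ 12 + b ^ 12), by rw [← hr]; ring⟩
    rcases Int.prime_two.dvd_mul.1 h2 with h | h <;> exact h
  obtain ⟨k, rfl⟩ := h1
  have h3 : (a ^ 3) ^ 4 + (b ^ 3) ^ 4 = k ^ 2 := by
    have h4 : 4 * (a ^ 12 + b ^ 12) = 4 * k ^ 2 := by rw [hr]; ring
    have h5 : a ^ 12 + b ^ 12 = k ^ 2 := by linarith
    rw [← h5]; ring
  exact not_fermat_42 (pow_ne_zero 3 ha) (pow_ne_zero 3 hb) h3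

/-- one point of the conic of the tangent line gives infinitely many solutions -/
theorem inf_of_point (a b q T0 V0 : ℤ) (ha : a ≠ 0) (hb : b ≠ 0) (hq : q ≠ 0)
    (h0 : V0 ^ 2 = (a ^ 12 + b ^ 12) * T0 ^ 2 +
      2 * (2 * a * b * (b ^ 8 - a ^ 8)) * (q * T0) +
      6 * a ^ 2 * b ^ 2 * (a ^ 4 + b ^ 4) * q ^ 2) :
    {v : ℤ × ℤ × ℤ | v.1 ^ 4 + v.2.1 ^ 4 - v.2.2 ^ 2 = q ^ 4 * (a ^ 4 + b ^ 4)}.Infinite := by
  obtain ⟨A, hA⟩ : ∃ A, A = a ^ 12 + b ^ 12 := ⟨_, rfl⟩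
  obtain ⟨B, hB⟩ : ∃ B, B = 2 * a * b * (b ^ 8 - a ^ 8) := ⟨_, rfl⟩
  have hApos : 0 < A := by rw [hA]; exact A_pos ha
  have hAne : A ≠ 0 := hApos.ne'
  have hN : -2 * q ^ 2 * (a * b * (a ^ 4 + b ^ 4)) ^ 2 * (a ^ 8 + a ^ 4 * b ^ 4 + b ^ 8) ≠ 0 := by
    have h1 : 0 < a ^ 4 + b ^ 4 := by positivity
    have h2 : 0 < a ^ 8 + a ^ 4 * b ^ 4 + b ^ 8 := by positivity
    have h3 : 0 < q ^ 2 := by positivity
    have h4 : 0 < (a * b * (a ^ 4 + b ^ 4)) ^ 2 := by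
      have : a * b * (a ^ 4 + b ^ 4) ≠ 0 := mul_ne_zero (mul_ne_zero ha hb) h1.ne'
      positivity
    have h5 := mul_pos (mul_pos h3 h4) h2
    intro h6
    linarith
  have hinf := Pool.Agent.Work.MP_4dcfa0_45.conic_infinite 1 0 (-A)
    (-2 * q ^ 2 * (a * b * (a ^ 4 + b ^ 4)) ^ 2 * (a ^ 8 + a ^ 4 * b ^ 4 + b ^ 8)) A
    (A * T0 + B * q) V0 (by linarith) (by
      have h1 := A_nonsq ha hb
      rw [← hA] at h1
      rwa [show (0 : ℤ) ^ 2 - 4 * 1 * (-A) = 4 * A by ring]) hAne hN (by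
      rw [hA, hB]
      linear_combination (-(a ^ 12 + b ^ 12)) * h0)
  intro hfin
  refine hinf (Set.Finite.of_finite_fibers
    (fun p : ℤ × ℤ => ((q * a + b ^ 3 * ((p.1 - B * q) / A), q * b - a ^ 3 * ((p.1 - B * q) / A),
      (p.1 - B * q) / A * p.2) : ℤ × ℤ × ℤ)) (hfin.subset ?_) ?_)
  · rintro _ ⟨⟨X, V⟩, ⟨h1, ⟨m, h2⟩, h3⟩, rfl⟩
    simp only at h1 h2
    have h4 : X - B * q = A * (T0 + m) := by linear_combination h2
    have h5 : (X - B * q) / A = T0 + m := by rw [h4]; exact Int.mul_ediv_cancel_left _ hAne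
    simp only [Set.mem_ofPred_eq, h5]
    refine tangent a b q (T0 + m) V ?_
    have h6 : X = A * (T0 + m) + B * q := by linear_combination h4
    rw [h6, hA, hB] at h1
    have h7 : (a ^ 12 + b ^ 12) * (V ^ 2) = (a ^ 12 + b ^ 12) * ((a ^ 12 + b ^ 12) * (T0 + m) ^ 2 +
      2 * (2 * a * b * (b ^ 8 - a ^ 8)) * (q * (T0 + m)) +
      6 * a ^ 2 * b ^ 2 * (a ^ 4 + b ^ 4) * q ^ 2) := by
      linear_combination -h1
    rw [hA] at hAne
    exact mul_left_cancel₀ hAne h7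
  · rintro _ ⟨⟨X1, V1⟩, ⟨h1, ⟨m1, h2⟩, h3⟩, rfl⟩
    simp only at h1 h2
    refine Set.Finite.subset (Set.toFinite {((X1, V1) : ℤ × ℤ), (X1, -V1)}) ?_
    rintro ⟨X, V⟩ ⟨⟨g1, ⟨m, g2⟩, g3⟩, g4⟩
    simp only at g1 g2
    have h5 : (X1 - B * q) / A = T0 + m1 := by
      rw [show X1 - B * q = A * (T0 + m1) by linear_combination h2]
      exact Int.mul_ediv_cancel_left _ hAne
    have g5 : (X - B * q) / A = T0 + m := by
      rw [show X - B * q = A * (T0 + m) by linear_combination g2]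
      exact Int.mul_ediv_cancel_left _ hAne
    simp only [Set.mem_preimage, Set.mem_singleton_iff, Prod.mk.injEq, h5, g5] at g4
    obtain ⟨e1, -, -⟩ := g4
    have e2 : b ^ 3 * (m - m1) = 0 := by linear_combination e1
    have e3 : m = m1 := by
      rcases mul_eq_zero.1 e2 with h | h
      · exact absurd h (pow_ne_zero 3 hb)
      · linarith
    have e4 : X = X1 := by
      rw [e3] at g2
      linear_combination g2 - h2
    have e5 : (V - V1) * (V + V1) = 0 := by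
      have : A * ((V - V1) * (V + V1)) = 0 := by
        rw [e4] at g1
        linear_combination h1 - g1
      rcases mul_eq_zero.1 this with h | h
      · exact absurd h hAne
      · exact h
    rcases mul_eq_zero.1 e5 with h | h
    · left
      rw [e4, sub_eq_zero.1 h]
    · right
      simp only [Set.mem_singleton_iff]
      rw [e4, eq_neg_of_add_eq_zero_left h]

end Pool.Agent.Work.MP_4dcfa0_tan
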