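import Pool.Agent.Work.MP_4dcfa0_tan.Norm

/-!
Infinitely many rationals `c` such that `c^8 + c^4 + 1` is a norm from `ℚ(√2)`.
-/

set_option autoImplicit false

namespace Pool.Agent.Work.MP_4dcfa0_tan

/-- `c^8 + c^4 + 1` is a norm from `ℚ(√2)` -/
def Nm (c : ℚ) : Prop := ∃ s t : ℚ, t ≠ 0 ∧ s ^ 2 - 2 * t ^ 2 = c ^ 8 + c ^ 4 + 1

theorem Nm.of_eq {c : ℚ} (s t : ℚ) (h : s ^ 2 - 2 * t ^ 2 = c ^ 8 + c ^ 4 + 1) : Nm c := by
  by_cases ht : t = 0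
  · have h1 : s ^ 2 = c ^ 8 + c ^ 4 + 1 := by rw [← h, ht]; ring
    have h2 : s ≠ 0 := by
      rintro rfl
      have h3 : 0 < c ^ 8 + c ^ 4 + 1 := by positivity
      rw [← h1] at h3
      norm_num at h3
    exact ⟨3 * s, 2 * s, mul_ne_zero two_ne_zero h2, by rw [← h1]; ring⟩
  · exact ⟨s, t, ht, h⟩

/-- a new point on the curve `y^2 = H x^4 + κ` (`u = H c^4`) -/
theorem step (c H s t : ℚ) (ht : t ≠ 0) (hH : H = s - c ^ 4 - 1 / 2)
    (h : s ^ 2 - 2 * t ^ 2 = c ^ 8 + c ^ 4 + 1) (u κ D m : ℚ) (hu : u = H * c ^ 4)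
    (hκ : κ = (H + 3 / 2) * (H - 1 / 2) / 2) (hD : D = κ ^ 2 - 6 * u * κ - 3 * u ^ 2)
    (hD0 : D ≠ 0) (hm : m = (3 * κ ^ 2 + 6 * u * κ - u ^ 2) / D) : Nm (c * m) := by
  have h0 : t ^ 2 = u + κ := by
    have hs : s = H + c ^ 4 + 1 / 2 := by rw [hH]; ring
    rw [hs] at h
    rw [hu, hκ]
    linear_combination (-1 / 2) * h
  obtain ⟨N, hN⟩ : ∃ N, N = 3 * κ ^ 2 + 6 * u * κ - u ^ 2 := ⟨_, rfl⟩
  have hmD : m * D = N := by rw [hm, hN, div_mul_cancel₀ _ hD0]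
  have key : ((u - κ) * (m ^ 2 - 1) + 2 * (u + κ) * m) ^ 2 = 4 * (u + κ) * (u * m ^ 4 + κ) := by
    have h1 : D ^ 4 * ((u - κ) * (m ^ 2 - 1) + 2 * (u + κ) * m) ^ 2 =
        D ^ 4 * (4 * (u + κ) * (u * m ^ 4 + κ)) := by
      have e1 : D ^ 4 * ((u - κ) * (m ^ 2 - 1) + 2 * (u + κ) * m) ^ 2 =
          ((u - κ) * ((m * D) ^ 2 - D ^ 2) + 2 * (u + κ) * (m * D) * D) ^ 2 := by ring
      have e2 : D ^ 4 * (4 * (u + κ) * (u * m ^ 4 + κ)) =
          4 * (u + κ) * (u * (m * D) ^ 4 + κ * D ^ 4) := by ring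
      rw [e1, e2, hmD, hN, hD]
      ring
    exact mul_left_cancel₀ (pow_ne_zero 4 hD0) h1
  have h2 : ((u - κ) * (m ^ 2 - 1) / (2 * t) + t * m) ^ 2 = u * m ^ 4 + κ := by
    have e1 : (u - κ) * (m ^ 2 - 1) / (2 * t) + t * m =
        ((u - κ) * (m ^ 2 - 1) + 2 * (u + κ) * m) / (2 * t) := by
      rw [← h0]
      field_simp
    rw [e1, div_pow, key, div_eq_iff (pow_ne_zero 2 (mul_ne_zero two_ne_zero ht))]
    rw [← h0]
    ring
  refine Nm.of_eq ((c * m) ^ 4 + 1 / 2 + H) ((u - κ) * (m ^ 2 - 1) / (2 * t) + t * m) ?_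
  rw [h2, hu, hκ]
  ring

/-- large solutions over `c = 16 / 3` -/
theorem large (K : ℕ) : ∃ s t : ℚ, 0 < t ∧ (K : ℚ) ≤ s ∧
    s ^ 2 - 2 * t ^ 2 = (16 / 3 : ℚ) ^ 8 + (16 / 3) ^ 4 + 1 := by
  induction K with
  | zero => exact ⟨65805 / 81, 3874 / 81, by norm_num, by norm_num, by norm_num⟩
  | succ K ih =>
    obtain ⟨s, t, h1, h2, h3⟩ := ih
    by_cases h4 : s < 1
    · refine ⟨65805 / 81, 3874 / 81, by norm_num, ?_, by norm_num⟩
      have h5 : (K : ℚ) < 1 := lt_of_le_of_lt h2 h4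
      push_cast
      linarith
    · push Not at h4
      refine ⟨3 * s + 4 * t, 2 * s + 3 * t, by linarith, ?_, ?_⟩
      · push_cast
        linarith
      · rw [← h3]; ring

/-- points close to `16` from above -/
theorem near (ε : ℚ) (hε : 0 < ε) : ∃ c : ℚ, 16 < c ∧ c < 16 + ε ∧ Nm c := by
  obtain ⟨δ, hδ⟩ : ∃ δ, δ = 3 * ε / 16 := ⟨_, rfl⟩
  have hδ0 : 0 < δ := by rw [hδ]; positivity
  obtain ⟨K, hK⟩ := exists_nat_gt (max 200000 (200000 / δ) + 1000)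
  obtain ⟨s, t, h1, h2, h3⟩ := large K
  obtain ⟨H, hH⟩ : ∃ H, H = s - (16 / 3 : ℚ) ^ 4 - 1 / 2 := ⟨_, rfl⟩
  have hw : (16 / 3 : ℚ) ^ 4 < 810 := by norm_num
  have hw0 : 0 < (16 / 3 : ℚ) ^ 4 := by norm_num
  have hHb : max 200000 (200000 / δ) < H := by rw [hH]; linarith
  have hH1 : 200000 < H := lt_of_le_of_lt (le_max_left _ _) hHb
  have hH2 : 200000 / δ < H := lt_of_le_of_lt (le_max_right _ _) hHb
  have hH3 : 200000 < H * δ := by rwa [div_lt_iff₀ hδ0] at hH2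
  obtain ⟨u, hu⟩ : ∃ u, u = H * (16 / 3 : ℚ) ^ 4 := ⟨_, rfl⟩
  obtain ⟨κ, hκ⟩ : ∃ κ, κ = (H + 3 / 2) * (H - 1 / 2) / 2 := ⟨_, rfl⟩
  have hu0 : 0 < u := by rw [hu]; exact mul_pos (by linarith) hw0
  have hu1 : u ≤ 810 * H := by
    rw [hu, mul_comm]
    exact mul_le_mul_of_nonneg_right hw.le (by linarith)
  have hκ1 : H ^ 2 / 2 ≤ κ := by
    rw [hκ]
    have : (H + 3 / 2) * (H - 1 / 2) / 2 = H ^ 2 / 2 + (H - 3 / 4) / 2 := by ring
    rw [this]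
    linarith
  have hHH : H * 200000 ≤ H ^ 2 := by
    rw [sq]
    exact mul_le_mul_of_nonneg_left hH1.le (by linarith)
  have hκ0 : 0 < κ := by
    have : 0 < H ^ 2 := by positivity
    linarith
  have c1 : 100 * u ≤ κ := by linarith
  have c2 : 64 * u < δ * κ := by
    have e1 : δ * (H ^ 2 / 2) ≤ δ * κ := mul_le_mul_of_nonneg_left hκ1 hδ0.le
    have e2 : δ * (H ^ 2 / 2) = (H * δ) * H / 2 := by ring
    have e3 : 200000 * H < (H * δ) * H := mul_lt_mul_of_pos_right hH3 (by linarith)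
    linarith
  obtain ⟨D, hD⟩ : ∃ D, D = κ ^ 2 - 6 * u * κ - 3 * u ^ 2 := ⟨_, rfl⟩
  have d1 : u * κ ≤ κ ^ 2 / 100 := by
    have := mul_le_mul_of_nonneg_right c1 hκ0.le
    linarith [this, sq κ]
  have d2 : u ^ 2 ≤ κ ^ 2 / 100 := by
    have e1 : u * u ≤ u * κ := mul_le_mul_of_nonneg_left (by linarith) hu0.le
    linarith [sq u]
  have hκ2 : 0 < κ ^ 2 := by positivity
  have hD1 : κ ^ 2 / 2 ≤ D := by
    rw [hD]
    linarith
  have hD0 : 0 < D := by linarith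
  obtain ⟨m, hm⟩ : ∃ m, m = (3 * κ ^ 2 + 6 * u * κ - u ^ 2) / D := ⟨_, rfl⟩
  have hm1 : m - 3 = 8 * u * (3 * κ + u) / D := by
    rw [hm, eq_div_iff hD0.ne', sub_mul, div_mul_cancel₀ _ hD0.ne', hD]
    ring
  have hm2 : 0 < m - 3 := by rw [hm1]; positivity
  have hm3 : m - 3 < δ := by
    rw [hm1, div_lt_iff₀ hD0]
    have e1 : 8 * u * (3 * κ + u) ≤ 32 * u * κ := by
      have : u * u ≤ u * κ := mul_le_mul_of_nonneg_left (by linarith) hu0.le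
      linarith
    have e2 : 64 * u * κ < δ * κ * κ := mul_lt_mul_of_pos_right c2 hκ0
    have e3 : δ * (κ ^ 2 / 2) ≤ δ * D := mul_le_mul_of_nonneg_left hD1 hδ0.le
    have e4 : δ * (κ ^ 2 / 2) = δ * κ * κ / 2 := by ring
    linarith
  refine ⟨16 / 3 * m, by linarith, by rw [hδ] at hm3; linarith, ?_⟩
  exact step (16 / 3) H s t h1.ne' hH h3 u κ D m hu hκ hD hD0.ne' hm

/-- infinitely many -/
theorem inf_Nm : {c : ℚ | 0 < c ∧ Nm c}.Infinite := by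
  intro hfin
  obtain ⟨B, hB⟩ := (hfin.image fun c : ℚ => 1 / (c - 16)).bddAbove
  obtain ⟨c, h1, h2, h3⟩ := near (1 / (|B| + 1)) (by positivity)
  have h4 : 1 / (c - 16) ≤ B := hB ⟨c, ⟨by linarith, h3⟩, rfl⟩
  have h5 : 0 < c - 16 := by linarith
  have h6 : 0 < |B| + 1 := by positivity
  have h7 : c - 16 < 1 / (|B| + 1) := by linarith
  have h8 : |B| + 1 < 1 / (c - 16) := by
    rw [lt_div_iff₀ h6] at h7
    rw [lt_div_iff₀ h5]
    linarith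
  linarith [le_abs_self B]

/-- odd `a`, `b` are impossible -/
theorem no_odd (E : ℤ) (hE : E % 8 = 3) : ∀ d : ℕ, 0 < d → ∀ S T : ℤ,
    S ^ 2 - 2 * T ^ 2 ≠ E * (d : ℤ) ^ 2 := by
  intro d
  induction d using Nat.strong_induction_on with
  | _ d ih =>
    intro hd S T h
    rcases Nat.even_or_odd' d with ⟨e, he | he⟩
    · have he0 : 0 < e := by omega
      have h1 : (d : ℤ) = 2 * e := by rw [he]; push_cast; ring
      rw [h1] at h
      have h2 : Even (S ^ 2) := ⟨T ^ 2 + E * (e : ℤ) ^ 2 * 2, by linear_combination h⟩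
      have h3 : Even S := by
        rw [Int.even_pow] at h2
        exact h2.1
      obtain ⟨S', rfl⟩ := h3
      have h4 : T ^ 2 = 2 * (S' ^ 2 - E * (e : ℤ) ^ 2) := by
        have h5 : 2 * T ^ 2 = 2 * (2 * (S' ^ 2 - E * (e : ℤ) ^ 2)) := by linear_combination -h
        exact mul_left_cancel₀ (two_ne_zero) h5
      have h6 : Even (T ^ 2) := ⟨S' ^ 2 - E * (e : ℤ) ^ 2, by rw [h4]; ring⟩
      have h7 : Even T := by
        rw [Int.even_pow] at h6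
        exact h6.1
      obtain ⟨T', rfl⟩ := h7
      refine ih e (by omega) he0 S' T' ?_
      have h8 : 4 * (S' ^ 2 - 2 * T' ^ 2) = 4 * (E * (e : ℤ) ^ 2) := by linear_combination h
      exact mul_left_cancel₀ (by norm_num) h8
    · have h1 : (d : ℤ) = 2 * e + 1 := by rw [he]; push_cast; ring
      rw [h1] at h
      have h2 : (S ^ 2 - 2 * T ^ 2) % 8 = (E * (2 * (e : ℤ) + 1) ^ 2) % 8 := by rw [h]
      have h3 : (E * (2 * (e : ℤ) + 1) ^ 2) % 8 = 3 := by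
        have h4 : (2 * (e : ℤ) + 1) ^ 2 % 8 = 1 := by
          have : (e : ℤ) % 4 = 0 ∨ (e : ℤ) % 4 = 1 ∨ (e : ℤ) % 4 = 2 ∨ (e : ℤ) % 4 = 3 := by omega
          obtain ⟨r, hr⟩ : ∃ r, r = (e : ℤ) / 4 := ⟨_, rfl⟩
          rcases this with g | g | g | g
          · have : (e : ℤ) = 4 * r := by omega
            rw [this, show (2 * (4 * r) + 1) ^ 2 = 8 * (8 * r ^ 2 + 2 * r) + 1 by ring]
            omega
          · have : (e : ℤ) = 4 * r + 1 := by omega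
            rw [this, show (2 * (4 * r + 1) + 1) ^ 2 = 8 * (8 * r ^ 2 + 6 * r + 1) + 1 by ring]
            omega
          · have : (e : ℤ) = 4 * r + 2 := by omega
            rw [this, show (2 * (4 * r + 2) + 1) ^ 2 = 8 * (8 * r ^ 2 + 10 * r + 3) + 1 by ring]
            omega
          · have : (e : ℤ) = 4 * r + 3 := by omega
            rw [this, show (2 * (4 * r + 3) + 1) ^ 2 = 8 * (8 * r ^ 2 + 14 * r + 6) + 1 by ring]
            omega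
        rw [Int.mul_emod, h4, hE]
        norm_num
      rw [h3] at h2
      have h5 : S ^ 2 % 8 = 0 ∨ S ^ 2 % 8 = 1 ∨ S ^ 2 % 8 = 4 := sq8 S
      have h6 : T ^ 2 % 8 = 0 ∨ T ^ 2 % 8 = 1 ∨ T ^ 2 % 8 = 4 := sq8 T
      omega
where
  sq8 (x : ℤ) : x ^ 2 % 8 = 0 ∨ x ^ 2 % 8 = 1 ∨ x ^ 2 % 8 = 4 := by
    have h : x % 8 = 0 ∨ x % 8 = 1 ∨ x % 8 = 2 ∨ x % 8 = 3 ∨ x % 8 = 4 ∨ x % 8 = 5 ∨ x % 8 = 6 ∨
      x % 8 = 7 := by omega
    rcases h with h | h | h | h | h | h | h | h <;> simp [sq, Int.mul_emod, h]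

end Pool.Agent.Work.MP_4dcfa0_tan
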