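import Pool.Agent.Work.MP_4dcfa0_tan.Family

/-!
Infinitely many coprime pairs `(a, b)` with `x^4 + y^4 - w^2 = q^4 (a^4 + b^4)` having infinitely
many integer solutions for some `q`.
-/

set_option autoImplicit false

namespace Pool.Agent.Work.MP_4dcfa0_tan

/-- the criterion, without `t ≠ 0` -/
theorem criterion (a b : ℤ) (ha : a ≠ 0) (hb : b ≠ 0)
    (h : ∃ s t : ℚ, s ^ 2 - 2 * t ^ 2 = (a : ℚ) ^ 8 + (a : ℚ) ^ 4 * (b : ℚ) ^ 4 + (b : ℚ) ^ 8) :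
    ∃ q : ℕ, 0 < q ∧ {v : ℤ × ℤ × ℤ | v.1 ^ 4 + v.2.1 ^ 4 - v.2.2 ^ 2 =
      (q : ℤ) ^ 4 * (a ^ 4 + b ^ 4)}.Infinite := by
  obtain ⟨s, t, h⟩ := h
  by_cases ht : t = 0
  · have haq : (a : ℚ) ≠ 0 := by exact_mod_cast ha
    have h1 : s ^ 2 = (a : ℚ) ^ 8 + (a : ℚ) ^ 4 * (b : ℚ) ^ 4 + (b : ℚ) ^ 8 := by
      rw [← h, ht]; ring
    have h2 : s ≠ 0 := by
      rintro rfl
      have h3 : 0 < (a : ℚ) ^ 8 + (a : ℚ) ^ 4 * (b : ℚ) ^ 4 + (b : ℚ) ^ 8 := by positivity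
      rw [← h1] at h3
      norm_num at h3
    exact inf_of_norm a b (3 * s) (2 * s) ha hb (mul_ne_zero two_ne_zero h2) (by rw [← h1]; ring)
  · exact inf_of_norm a b s t ha hb ht h

theorem not_sq {a b q : ℕ} (ha : 0 < a) (hb : 0 < b) (hq : 0 < q) (m : ℤ) :
    (q : ℤ) ^ 4 * ((a : ℤ) ^ 4 + (b : ℤ) ^ 4) ≠ m ^ 2 := by
  intro h
  have hq' : (q : ℤ) ≠ 0 := by exact_mod_cast hq.ne'
  have h1 : ((q : ℤ) ^ 2) ^ 2 ∣ m ^ 2 := ⟨(a : ℤ) ^ 4 + (b : ℤ) ^ 4, by rw [← h]; ring⟩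
  have h2 : (q : ℤ) ^ 2 ∣ m := (Int.pow_dvd_pow_iff two_ne_zero).1 h1
  obtain ⟨k, rfl⟩ := h2
  have h3 : (a : ℤ) ^ 4 + (b : ℤ) ^ 4 = k ^ 2 := by
    have h4 : (q : ℤ) ^ 4 * ((a : ℤ) ^ 4 + (b : ℤ) ^ 4) = (q : ℤ) ^ 4 * k ^ 2 := by rw [h]; ring
    exact mul_left_cancel₀ (pow_ne_zero 4 hq') h4
  exact not_fermat_42 (by exact_mod_cast ha.ne') (by exact_mod_cast hb.ne') h3

theorem not_two_sq {a b q : ℕ} (hodd : Odd ((a : ℤ) ^ 4 + (b : ℤ) ^ 4)) (hq : 0 < q) (m : ℤ) :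
    (q : ℤ) ^ 4 * ((a : ℤ) ^ 4 + (b : ℤ) ^ 4) ≠ 2 * m ^ 2 := by
  intro h
  have hq' : (q : ℤ) ≠ 0 := by exact_mod_cast hq.ne'
  have h1 : ((q : ℤ) ^ 2) ^ 2 ∣ (2 * m) ^ 2 := ⟨2 * ((a : ℤ) ^ 4 + (b : ℤ) ^ 4), by
    rw [show (2 * m) ^ 2 = 2 * (2 * m ^ 2) by ring, ← h]; ring⟩
  have h2 : (q : ℤ) ^ 2 ∣ 2 * m := (Int.pow_dvd_pow_iff two_ne_zero).1 h1
  obtain ⟨k, hk⟩ := h2
  have h3 : 2 * ((a : ℤ) ^ 4 + (b : ℤ) ^ 4) = k ^ 2 := by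
    have h4 : (q : ℤ) ^ 4 * (2 * ((a : ℤ) ^ 4 + (b : ℤ) ^ 4)) = (q : ℤ) ^ 4 * k ^ 2 := by
      rw [show (q : ℤ) ^ 4 * (2 * ((a : ℤ) ^ 4 + (b : ℤ) ^ 4)) =
        2 * ((q : ℤ) ^ 4 * ((a : ℤ) ^ 4 + (b : ℤ) ^ 4)) by ring, h,
        show (q : ℤ) ^ 4 * k ^ 2 = ((q : ℤ) ^ 2 * k) ^ 2 by ring, ← hk]
      ring
    exact mul_left_cancel₀ (pow_ne_zero 4 hq') h4
  have h5 : Even (k ^ 2) := by rw [← h3]; exact even_two_mul _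
  rw [Int.even_pow] at h5
  obtain ⟨l, rfl⟩ := h5.1
  have h6 : (a : ℤ) ^ 4 + (b : ℤ) ^ 4 = 2 * l ^ 2 := by linarith [h3, show (l + l) ^ 2 = 4 * l ^ 2 by ring]
  rw [h6] at hodd
  exact (Int.not_odd_iff_even.2 (even_two_mul _)) hodd

/-- odd `a`, `b`: the norm equation has no solution -/
theorem not_both_odd {a b : ℤ} (ha : Odd a) (hb : Odd b) (s t : ℚ)
    (h : s ^ 2 - 2 * t ^ 2 = (a : ℚ) ^ 8 + (a : ℚ) ^ 4 * (b : ℚ) ^ 4 + (b : ℚ) ^ 8) : False := by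
  have hs : s * (s.den : ℚ) = (s.num : ℚ) := Rat.mul_den_eq_num s
  have ht : t * (t.den : ℚ) = (t.num : ℚ) := Rat.mul_den_eq_num t
  have h8 : ∀ x : ℤ, Odd x → x ^ 4 % 8 = 1 := by
    intro x hx
    have h1 : x % 8 = 1 ∨ x % 8 = 3 ∨ x % 8 = 5 ∨ x % 8 = 7 := by
      have := Int.odd_iff.1 hx
      omega
    rcases h1 with h | h | h | h <;> simp [pow_succ, Int.mul_emod, h]
  have hE : (a ^ 8 + a ^ 4 * b ^ 4 + b ^ 8) % 8 = 3 := by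
    have h1 := h8 a ha
    have h2 := h8 b hb
    rw [show a ^ 8 = a ^ 4 * a ^ 4 by ring, show b ^ 8 = b ^ 4 * b ^ 4 by ring]
    have h3 : a ^ 4 * a ^ 4 % 8 = 1 := by rw [Int.mul_emod, h1]; norm_num
    have h4 : a ^ 4 * b ^ 4 % 8 = 1 := by rw [Int.mul_emod, h1, h2]; norm_num
    have h5 : b ^ 4 * b ^ 4 % 8 = 1 := by rw [Int.mul_emod, h2]; norm_num
    omega
  refine no_odd _ hE (s.den * t.den) (Nat.mul_pos s.den_pos t.den_pos) (s.num * t.den)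
    (t.num * s.den) ?_
  have h1 : ((s.num * t.den : ℤ) : ℚ) ^ 2 - 2 * ((t.num * s.den : ℤ) : ℚ) ^ 2 =
      ((a : ℚ) ^ 8 + (a : ℚ) ^ 4 * (b : ℚ) ^ 4 + (b : ℚ) ^ 8) * (((s.den * t.den : ℕ) : ℤ) : ℚ) ^ 2 := by
    push_cast
    rw [← hs, ← ht]
    linear_combination ((s.den : ℚ) * t.den) ^ 2 * h
  exact_mod_cast h1

theorem infinite_pairs : {p : ℕ × ℕ | 0 < p.1 ∧ 0 < p.2 ∧ p.1.Coprime p.2 ∧ ∃ q : ℕ, 0 < q ∧
    (∀ m : ℤ, (q : ℤ) ^ 4 * ((p.1 : ℤ) ^ 4 + (p.2 : ℤ) ^ 4) ≠ m ^ 2 ∧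
      (q : ℤ) ^ 4 * ((p.1 : ℤ) ^ 4 + (p.2 : ℤ) ^ 4) ≠ 2 * m ^ 2) ∧
    {v : ℤ × ℤ × ℤ | v.1 ^ 4 + v.2.1 ^ 4 - v.2.2 ^ 2 =
      (q : ℤ) ^ 4 * ((p.1 : ℤ) ^ 4 + (p.2 : ℤ) ^ 4)}.Infinite}.Infinite := by
  refine Set.Infinite.mono ?_ (inf_Nm.image (f := fun c : ℚ => (c.num.natAbs, c.den)) ?_)
  · rintro _ ⟨c, ⟨hc, s, t, _, hst⟩, rfl⟩
    have hnum : 0 < c.num := Rat.num_pos.2 hc
    have ha : 0 < c.num.natAbs := Int.natAbs_pos.2 hnum.ne'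
    have hb : 0 < c.den := c.den_pos
    have hcd : c * (c.den : ℚ) = (c.num.natAbs : ℚ) := by
      rw [Rat.mul_den_eq_num]
      have h1 : (c.num.natAbs : ℤ) = c.num := Int.natAbs_of_nonneg hnum.le
      rw [← Int.cast_natCast (R := ℚ), h1]
    have hE : (s * (c.den : ℚ) ^ 4) ^ 2 - 2 * (t * (c.den : ℚ) ^ 4) ^ 2 =
        (((c.num.natAbs : ℕ) : ℤ) : ℚ) ^ 8 + (((c.num.natAbs : ℕ) : ℤ) : ℚ) ^ 4 *
          (((c.den : ℕ) : ℤ) : ℚ) ^ 4 + (((c.den : ℕ) : ℤ) : ℚ) ^ 8 := by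
      simp only [Int.cast_natCast]
      rw [← hcd]
      linear_combination (c.den : ℚ) ^ 8 * hst
    obtain ⟨q, hq, hinf⟩ := criterion ((c.num.natAbs : ℕ) : ℤ) ((c.den : ℕ) : ℤ)
      (by exact_mod_cast ha.ne') (by exact_mod_cast hb.ne') ⟨_, _, hE⟩
    refine ⟨ha, hb, c.reduced, q, hq, fun m => ⟨not_sq ha hb hq m, not_two_sq ?_ hq m⟩, hinf⟩
    have hcop : c.num.natAbs.Coprime c.den := c.reduced
    rcases Nat.even_or_odd c.num.natAbs with g1 | g1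
    · rcases Nat.even_or_odd c.den with g2 | g2
      · exfalso
        have := Nat.dvd_gcd (even_iff_two_dvd.1 g1) (even_iff_two_dvd.1 g2)
        rw [hcop] at this
        omega
      · exact Even.add_odd (((Int.even_coe_nat _).2 g1).pow_of_ne_zero (by norm_num))
          (((Int.odd_coe_nat _).2 g2).pow)
    · rcases Nat.even_or_odd c.den with g2 | g2
      · exact Odd.add_even (((Int.odd_coe_nat _).2 g1).pow)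
          (((Int.even_coe_nat _).2 g2).pow_of_ne_zero (by norm_num))
      · exact (not_both_odd ((Int.odd_coe_nat _).2 g1) ((Int.odd_coe_nat _).2 g2) _ _ hE).elim
  · intro c hc d hd hcd
    have h1 : c.num.natAbs = d.num.natAbs := (Prod.ext_iff.1 hcd).1
    have h2 : c.den = d.den := (Prod.ext_iff.1 hcd).2
    have h3 : 0 < c.num := Rat.num_pos.2 hc.1
    have h4 : 0 < d.num := Rat.num_pos.2 hd.1
    exact Rat.ext (by omega) h2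

end Pool.Agent.Work.MP_4dcfa0_tan
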