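import Pool.Agent.Work.MP_4dcfa0_tan.Conic

/-!
The conic of the tangent line has a rational point when `a^8 + a^4 b^4 + b^8` is a norm from
`ℚ(√2)`.
-/

set_option autoImplicit false

namespace Pool.Agent.Work.MP_4dcfa0_tan

/-- the polynomial identity behind the criterion -/
theorem poly_id {R : Type} [CommRing R] (a b : R) :
    (a ^ 8 - a ^ 7 * b + a ^ 6 * b ^ 2 + a ^ 2 * b ^ 6 + a * b ^ 7 + b ^ 8) ^ 2 =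
      2 * (a ^ 12 + b ^ 12) * (a * b) ^ 2 +
        (a ^ 8 + a ^ 4 * b ^ 4 + b ^ 8) * (b ^ 4 + a * b ^ 3 + a ^ 3 * b - a ^ 4) ^ 2 := by
  ring

theorem E_pos {a : ℚ} (b : ℚ) (ha : a ≠ 0) : 0 < a ^ 8 + a ^ 4 * b ^ 4 + b ^ 8 := by positivity

/-- `a^12 + b^12` as a norm from `ℚ(√E)` -/
theorem A_norm (a b s t : ℚ) (ha : a ≠ 0) (hb : b ≠ 0) (ht : t ≠ 0)
    (h : s ^ 2 - 2 * t ^ 2 = a ^ 8 + a ^ 4 * b ^ 4 + b ^ 8) :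
    ∃ P R : ℚ, R ≠ 0 ∧ a ^ 12 + b ^ 12 = P ^ 2 - (a ^ 8 + a ^ 4 * b ^ 4 + b ^ 8) * R ^ 2 := by
  obtain ⟨x, hx⟩ : ∃ x, x = a ^ 8 - a ^ 7 * b + a ^ 6 * b ^ 2 + a ^ 2 * b ^ 6 + a * b ^ 7 + b ^ 8 :=
    ⟨_, rfl⟩
  obtain ⟨y, hy⟩ : ∃ y, y = b ^ 4 + a * b ^ 3 + a ^ 3 * b - a ^ 4 := ⟨_, rfl⟩
  obtain ⟨E, hE⟩ : ∃ E, E = a ^ 8 + a ^ 4 * b ^ 4 + b ^ 8 := ⟨_, rfl⟩
  obtain ⟨A, hA⟩ : ∃ A, A = a ^ 12 + b ^ 12 := ⟨_, rfl⟩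
  have hEpos : 0 < E := by rw [hE]; exact E_pos b ha
  have hApos : 0 < A := by rw [hA]; positivity
  have h1 : x ^ 2 = 2 * A * (a * b) ^ 2 + E * y ^ 2 := by
    rw [hx, hy, hE, hA]
    exact poly_id a b
  have hab : a * b ≠ 0 := mul_ne_zero ha hb
  have hx0 : x ≠ 0 := by
    intro h2
    have h3 : 0 < 2 * A * (a * b) ^ 2 := by positivity
    have h4 : 0 ≤ E * y ^ 2 := by positivity
    rw [h2] at h1
    linarith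
  rw [← hE, ← hA]
  rw [← hE] at h
  -- choose the sign of `s`
  obtain ⟨s', hs', hne⟩ : ∃ s' : ℚ, s' ^ 2 - 2 * t ^ 2 = E ∧ x + y * s' ≠ 0 := by
    by_cases h2 : x + y * s = 0
    · refine ⟨-s, by rw [neg_sq]; exact h, fun h3 => hx0 ?_⟩
      linarith
    · exact ⟨s, h, h2⟩
  refine ⟨(x * s' + y * E) / (2 * (a * b) * t), (x + y * s') / (2 * (a * b) * t),
    div_ne_zero hne (mul_ne_zero (mul_ne_zero two_ne_zero hab) ht), ?_⟩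
  have h5 : (2 * (a * b) * t) ^ 2 ≠ 0 := pow_ne_zero 2 (mul_ne_zero (mul_ne_zero two_ne_zero hab) ht)
  have h6 : A * (2 * (a * b) * t) ^ 2 = (x * s' + y * E) ^ 2 - E * (x + y * s') ^ 2 := by
    have h7 : (x * s' + y * E) ^ 2 - E * (x + y * s') ^ 2 = (s' ^ 2 - E) * (x ^ 2 - E * y ^ 2) := by
      ring
    rw [h7, h1, show s' ^ 2 - E = 2 * t ^ 2 by linarith]
    ring
  rw [div_pow, div_pow, ← mul_div_assoc, ← sub_div, ← h6, mul_div_assoc, div_self h5, mul_one]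

/-- a rational point of the conic -/
theorem exists_T (a b s t : ℚ) (ha : a ≠ 0) (hb : b ≠ 0) (ht : t ≠ 0)
    (h : s ^ 2 - 2 * t ^ 2 = a ^ 8 + a ^ 4 * b ^ 4 + b ^ 8) :
    ∃ T V : ℚ, V ^ 2 = (a ^ 12 + b ^ 12) * T ^ 2 + 2 * (2 * a * b * (b ^ 8 - a ^ 8)) * T +
      6 * a ^ 2 * b ^ 2 * (a ^ 4 + b ^ 4) := by
  obtain ⟨P, R, hR, h1⟩ := A_norm a b s t ha hb ht h
  obtain ⟨E, hE⟩ : ∃ E, E = a ^ 8 + a ^ 4 * b ^ 4 + b ^ 8 := ⟨_, rfl⟩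
  obtain ⟨A, hA⟩ : ∃ A, A = a ^ 12 + b ^ 12 := ⟨_, rfl⟩
  obtain ⟨β, hβ⟩ : ∃ β, β = a ^ 6 - b ^ 6 := ⟨_, rfl⟩
  have hApos : 0 < A := by rw [hA]; positivity
  have hab : a * b ≠ 0 := mul_ne_zero ha hb
  have h2 : β ^ 2 - A = -2 * ((a * b) ^ 3) ^ 2 := by rw [hβ, hA]; ring
  rw [← hA, ← hE] at h1
  have hd : R * (a * b) ^ 3 ≠ 0 := mul_ne_zero hR (pow_ne_zero 3 hab)
  have hd2 : (R * (a * b) ^ 3) ^ 2 ≠ 0 := pow_ne_zero 2 hd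
  obtain ⟨X, hX⟩ : ∃ X, X = (P * β + A) / (R * (a * b) ^ 3) := ⟨_, rfl⟩
  obtain ⟨W, hW⟩ : ∃ W, W = (P + β) / (R * (a * b) ^ 3) := ⟨_, rfl⟩
  have h3 : X ^ 2 - A * W ^ 2 = -2 * E := by
    have h4 : (P * β + A) ^ 2 - A * (P + β) ^ 2 = (P ^ 2 - A) * (β ^ 2 - A) := by ring
    have h5 : P ^ 2 - A = E * R ^ 2 := by linarith
    rw [hX, hW, div_pow, div_pow, ← mul_div_assoc, ← sub_div, h4, h5, h2, div_eq_iff hd2]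
    ring
  obtain ⟨n, hn⟩ : ∃ n, n = a ^ 4 + b ^ 4 := ⟨_, rfl⟩
  obtain ⟨B, hB⟩ : ∃ B, B = 2 * a * b * (b ^ 8 - a ^ 8) := ⟨_, rfl⟩
  refine ⟨(a * b * n * X - B) / A, a * b * n * W, ?_⟩
  rw [← hA, ← hB, ← hn]
  have h6 : B ^ 2 - A * (6 * a ^ 2 * b ^ 2 * n) = -2 * (a * b * n) ^ 2 * E := by
    rw [hB, hA, hn, hE]; ring
  have h7 : A * (a * b * n * W) ^ 2 = (a * b * n * X) ^ 2 - (B ^ 2 - A * (6 * a ^ 2 * b ^ 2 * n)) := by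
    rw [h6]
    linear_combination (-(a * b * n) ^ 2) * h3
  have h8 : A * ((a * b * n * X - B) / A) = a * b * n * X - B := mul_div_cancel₀ _ hApos.ne'
  have h9 : A * ((a * b * n * W) ^ 2) = A * (A * ((a * b * n * X - B) / A) ^ 2 +
      2 * B * ((a * b * n * X - B) / A) + 6 * a ^ 2 * b ^ 2 * n) := by
    have h10 : A * (A * ((a * b * n * X - B) / A) ^ 2 +
      2 * B * ((a * b * n * X - B) / A) + 6 * a ^ 2 * b ^ 2 * n) =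
      (A * ((a * b * n * X - B) / A)) ^ 2 + 2 * B * (A * ((a * b * n * X - B) / A)) +
        A * (6 * a ^ 2 * b ^ 2 * n) := by ring
    rw [h10, h8, h7]
    ring
  exact mul_left_cancel₀ hApos.ne' h9

/-- the criterion -/
theorem inf_of_norm (a b : ℤ) (s t : ℚ) (ha : a ≠ 0) (hb : b ≠ 0) (ht : t ≠ 0)
    (h : s ^ 2 - 2 * t ^ 2 = (a : ℚ) ^ 8 + (a : ℚ) ^ 4 * (b : ℚ) ^ 4 + (b : ℚ) ^ 8) :
    ∃ q : ℕ, 0 < q ∧ {v : ℤ × ℤ × ℤ | v.1 ^ 4 + v.2.1 ^ 4 - v.2.2 ^ 2 =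
      (q : ℤ) ^ 4 * (a ^ 4 + b ^ 4)}.Infinite := by
  obtain ⟨T, V, hTV⟩ := exists_T a b s t (by exact_mod_cast ha) (by exact_mod_cast hb) ht h
  have hq : 0 < T.den * V.den := Nat.mul_pos T.den_pos V.den_pos
  refine ⟨T.den * V.den, hq, ?_⟩
  have hT : T * (T.den : ℚ) = (T.num : ℚ) := Rat.mul_den_eq_num T
  have hV : V * (V.den : ℚ) = (V.num : ℚ) := Rat.mul_den_eq_num V
  have h0 := inf_of_point a b ((T.den * V.den : ℕ) : ℤ) (T.num * V.den) (V.num * T.den) ha hb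
    (by exact_mod_cast hq.ne') ?_
  · exact h0
  · have h1 : ((V.num * T.den : ℤ) : ℚ) ^ 2 = ((a : ℚ) ^ 12 + (b : ℚ) ^ 12) *
        ((T.num * V.den : ℤ) : ℚ) ^ 2 +
        2 * (2 * (a : ℚ) * b * ((b : ℚ) ^ 8 - (a : ℚ) ^ 8)) *
          (((T.den * V.den : ℕ) : ℤ) * ((T.num * V.den : ℤ) : ℚ)) +
        6 * (a : ℚ) ^ 2 * (b : ℚ) ^ 2 * ((a : ℚ) ^ 4 + (b : ℚ) ^ 4) *
          (((T.den * V.den : ℕ) : ℤ) : ℚ) ^ 2 := by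
      push_cast
      rw [← hT, ← hV]
      linear_combination ((T.den : ℚ) * V.den) ^ 2 * hTV
    exact_mod_cast h1

end Pool.Agent.Work.MP_4dcfa0_tan
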